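import Pool.Agent.H.MP_f66848_co.Defs

namespace Pool.Agent.H.MP_f66848_co
open Finset

variable {V : Type} [Fintype V]

def Bal (k : ℕ) (L : V → Finset ℕ) (f : V → ℕ) : Prop :=
  (∀ v, f v ∈ L v) ∧ ∀ c, cnt f c ≤ 2 ∧ (mult L c ≤ k → cnt f c ≤ 1) ∧ (k ≤ mult L c → 1 ≤ cnt f c)

lemma sum_mult (L : V → Finset ℕ) (T : Finset ℕ) :
    ∑ c ∈ T, mult L c = ∑ v, (T.filter (fun c => c ∈ L v)).card := by
  simp only [mult, card_filter]
  exact sum_comm

lemma exists_bal (k : ℕ) (hk : 1 ≤ k) (L : V → Finset ℕ) (hL : ∀ v, (L v).card = k)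
    (hm : ∀ c, mult L c ≤ 2 * k) : ∃ f, Bal k L f := by
  classical
  set P : Finset ℕ := univ.biUnion L with hP
  set S : Finset (ℕ × Bool) :=
    (P ×ˢ univ).filter (fun s => s.2 = true → k < mult L s.1) with hS
  set S0 : Finset (ℕ × Bool) := S.filter (fun s => s.2 = false ∧ k ≤ mult L s.1) with hS0
  let N : V → Finset (ℕ × Bool) := fun v => S.filter (fun s => s.1 ∈ L v)
  have h1 : ∀ Y : Finset V, Y.card ≤ (Y.biUnion N).card := by
    intro Y
    set C := Y.biUnion L with hC
    have e1 : k * Y.card ≤ ∑ c ∈ C, mult L c := by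
      rw [sum_mult]
      calc k * Y.card = ∑ v ∈ Y, (C.filter (fun c => c ∈ L v)).card := by
            rw [mul_comm, ← smul_eq_mul, ← sum_const]
            refine sum_congr rfl (fun v hv => ?_)
            rw [← hL v]
            congr 1
            ext c
            simp only [mem_filter, hC, mem_biUnion]
            exact ⟨fun h => ⟨⟨v, hv, h⟩, h⟩, fun h => h.2⟩
        _ ≤ _ := sum_le_sum_of_subset (subset_univ _)
    have e2 : (Y.biUnion N).card = ∑ c ∈ C, ((Y.biUnion N).filter (fun s => s.1 = c)).card := by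
      refine card_eq_sum_card_fiberwise (fun s hs => ?_)
      obtain ⟨v, hv, h⟩ := mem_biUnion.1 (mem_coe.1 hs)
      exact mem_coe.2 (mem_biUnion.2 ⟨v, hv, (mem_filter.1 h).2⟩)
    have e3 : ∑ c ∈ C, mult L c ≤ k * (Y.biUnion N).card := by
      rw [e2, mul_sum]
      refine sum_le_sum (fun c hc => ?_)
      obtain ⟨v, hv, h⟩ := mem_biUnion.1 hc
      have hcP : c ∈ P := mem_biUnion.2 ⟨v, mem_univ _, h⟩
      have a1 : (c, false) ∈ (Y.biUnion N).filter (fun s => s.1 = c) :=
        mem_filter.2 ⟨mem_biUnion.2 ⟨v, hv, mem_filter.2 ⟨by simp [hS, hcP], h⟩⟩, rfl⟩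
      by_cases hb : k < mult L c
      · have a2 : (c, true) ∈ (Y.biUnion N).filter (fun s => s.1 = c) :=
          mem_filter.2 ⟨mem_biUnion.2 ⟨v, hv, mem_filter.2 ⟨by simp [hS, hcP, hb], h⟩⟩, rfl⟩
        have := one_lt_card.2 ⟨_, a1, _, a2, by simp⟩
        have := hm c
        nlinarith
      · have := card_pos.2 ⟨_, a1⟩
        nlinarith
    exact Nat.le_of_mul_le_mul_left (e1.trans e3) hk
  have hV : Fintype.card V ≤ S.card := by
    refine (card_univ (α := V) ▸ h1 univ).trans (card_le_card ?_)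
    intro s hs
    obtain ⟨v, -, h⟩ := mem_biUnion.1 hs
    exact (mem_filter.1 h).1
  have h2 : ∀ Y : Finset V, (S0 \ Y.biUnion N).card + Y.card ≤ Fintype.card V := by
    intro Y
    set T := S0 \ Y.biUnion N with hT
    have i1 : Set.InjOn Prod.fst (T : Set (ℕ × Bool)) := by
      intro s hs t ht e
      have a := (mem_filter.1 (mem_sdiff.1 (mem_coe.1 hs)).1).2.1
      have b := (mem_filter.1 (mem_sdiff.1 (mem_coe.1 ht)).1).2.1
      exact Prod.ext e (a.trans b.symm)
    have e1 : k * T.card ≤ ∑ c ∈ T.image Prod.fst, mult L c := by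
      rw [← card_image_of_injOn i1, mul_comm, ← smul_eq_mul]
      refine card_nsmul_le_sum _ _ _ (fun c hc => ?_)
      obtain ⟨s, hs, rfl⟩ := mem_image.1 hc
      exact (mem_filter.1 (mem_sdiff.1 hs).1).2.2
    have e2 : ∑ c ∈ T.image Prod.fst, mult L c ≤ k * (univ \ Y).card := by
      rw [sum_mult, ← sum_sdiff (subset_univ Y)]
      have z : ∑ v ∈ Y, ((T.image Prod.fst).filter (fun c => c ∈ L v)).card = 0 := by
        refine sum_eq_zero (fun v hv => card_eq_zero.2 (filter_eq_empty_iff.2 ?_))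
        intro c hc h
        obtain ⟨s, hs, rfl⟩ := mem_image.1 hc
        exact (mem_sdiff.1 hs).2 (mem_biUnion.2 ⟨v, hv,
          mem_filter.2 ⟨(mem_filter.1 (mem_sdiff.1 hs).1).1, h⟩⟩)
      rw [z, add_zero, mul_comm, ← smul_eq_mul]
      refine sum_le_card_nsmul _ _ _ (fun v _ => ?_)
      rw [← hL v]
      exact card_le_card (fun c hc => (mem_filter.1 hc).2)
    have e3 := Nat.le_of_mul_le_mul_left (e1.trans e2) hk
    rw [card_sdiff_of_subset (subset_univ Y), card_univ] at e3
    have := card_le_univ Y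
    omega
  let t : V ⊕ Fin (S.card - Fintype.card V) → Finset (ℕ × Bool) :=
    Sum.elim N (fun _ => S \ S0)
  obtain ⟨g, g1, g2⟩ := (all_card_le_biUnion_card_iff_exists_injective t).1 (fun X => by
    have c1 := card_toLeft_add_card_toRight (u := X)
    have s1 : X.toLeft.biUnion N ⊆ X.biUnion t := by
      intro s hs
      obtain ⟨v, hv, h⟩ := mem_biUnion.1 hs
      exact mem_biUnion.2 ⟨Sum.inl v, mem_toLeft.1 hv, h⟩
    rcases X.toRight.eq_empty_or_nonempty with h | ⟨z, hz⟩
    · have := h1 X.toLeft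
      have := card_le_card s1
      rw [h, card_empty] at c1
      omega
    · have s2 : S \ (S0 \ X.toLeft.biUnion N) ⊆ X.biUnion t := by
        intro s hs
        obtain ⟨a, b⟩ := mem_sdiff.1 hs
        by_cases c : s ∈ S0
        · refine s1 ?_
          by_contra d
          exact b (mem_sdiff.2 ⟨c, d⟩)
        · exact mem_biUnion.2 ⟨Sum.inr z, mem_toRight.1 hz, mem_sdiff.2 ⟨a, c⟩⟩
      have c2 := card_le_card s2
      have s3 : S0 \ X.toLeft.biUnion N ⊆ S := sdiff_subset.trans (filter_subset _ _)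
      rw [card_sdiff_of_subset s3] at c2
      have c5 := card_le_card s3
      have c3 := h2 X.toLeft
      have c4 := card_le_univ X.toRight
      rw [Fintype.card_fin] at c4
      omega)
  have gS : ∀ x, g x ∈ S := by
    rintro (v | z)
    · exact (mem_filter.1 (g2 (Sum.inl v))).1
    · exact (mem_sdiff.1 (g2 (Sum.inr z))).1
  have gim : univ.image g = S := by
    refine eq_of_subset_of_card_le (fun s hs => ?_) ?_
    · obtain ⟨x, -, rfl⟩ := mem_image.1 hs
      exact gS x
    · rw [card_image_of_injective _ g1, card_univ, Fintype.card_sum, Fintype.card_fin]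
      omega
  refine ⟨fun v => (g (Sum.inl v)).1, fun v => (mem_filter.1 (g2 (Sum.inl v))).2, fun c => ⟨?_, ?_, ?_⟩⟩
  · refine (card_le_card_of_injOn (t := univ) (fun v => (g (Sum.inl v)).2) (fun _ _ => mem_coe.2 (mem_univ _)) ?_).trans (by simp)
    intro u hu v hv e
    have a := (mem_filter.1 (mem_coe.1 hu)).2
    have b := (mem_filter.1 (mem_coe.1 hv)).2
    exact Sum.inl_injective (g1 (Prod.ext (a.trans b.symm) e))
  · intro hc
    refine card_le_one.2 (fun u hu v hv => ?_)
    have a := (mem_filter.1 hu).2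
    have b := (mem_filter.1 hv).2
    have q : ∀ w, (g (Sum.inl w)).1 = c → (g (Sum.inl w)).2 = false := by
      intro w hw
      by_contra e
      have := (mem_filter.1 (gS (Sum.inl w))).2 (by simpa using e)
      rw [hw] at this
      omega
    exact Sum.inl_injective (g1 (Prod.ext (a.trans b.symm) ((q u a).trans (q v b).symm)))
  · intro hc
    have hcP : c ∈ P := by
      obtain ⟨v, hv⟩ := card_pos.1 (show 0 < mult L c by omega)
      exact mem_biUnion.2 ⟨v, mem_univ _, (mem_filter.1 hv).2⟩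
    have a : (c, false) ∈ S := by simp [hS, hcP]
    have b : (c, false) ∈ S0 := mem_filter.2 ⟨a, rfl, hc⟩
    rw [← gim] at a
    obtain ⟨x, -, hx⟩ := mem_image.1 a
    rcases x with v | z
    · exact card_pos.2 ⟨v, mem_filter.2 ⟨mem_univ _, by simp only [hx]⟩⟩
    · exact absurd (hx ▸ b) (mem_sdiff.1 (g2 (Sum.inr z))).2

lemma cnt_update [DecidableEq V] (f : V → ℕ) (v : V) (x e : ℕ) :
    cnt (Function.update f v x) e + (if f v = e then 1 else 0) =
      cnt f e + (if x = e then 1 else 0) := by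
  simp only [cnt, card_filter]
  rw [← add_sum_erase _ _ (mem_univ v), ← add_sum_erase _ _ (mem_univ v)]
  have : ∑ w ∈ univ.erase v, (if Function.update f v x w = e then 1 else 0) =
      ∑ w ∈ univ.erase v, (if f w = e then 1 else 0) :=
    sum_congr rfl (fun w hw => by rw [Function.update_of_ne (ne_of_mem_erase hw)])
  rw [this, Function.update_self]
  ring

lemma Bal.change {k : ℕ} {L : V → Finset ℕ} {f g : V → ℕ} (h : Bal k L f) (h1 : ∀ v, g v ∈ L v)
    (h2 : ∀ c, cnt g c = cnt f c ∨ cnt g c = 1) : Bal k L g := by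
  refine ⟨h1, fun c => ?_⟩
  rcases h2 c with e | e
  · rw [e]; exact h.2 c
  · rw [e]; simp

lemma Bal.prop {k : ℕ} (hk : 1 ≤ k) {L : V → Finset ℕ} {f : V → ℕ} (h : Bal k L f)
    (hm : ∀ c, mult L c < 2 * k) (c : ℕ) (hc : ∃ v, c ∈ L v) :
    cnt f c = ⌊(mult L c : ℚ) / k⌋₊ ∨ cnt f c = ⌈(mult L c : ℚ) / k⌉₊ := by
  obtain ⟨a1, a2, a3⟩ := h.2 c
  have hk' : (0 : ℚ) < k := by exact_mod_cast hk
  have p : 0 < mult L c := by
    obtain ⟨v, hv⟩ := hc
    exact card_pos.2 ⟨v, mem_filter.2 ⟨mem_univ _, hv⟩⟩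
  have m := hm c
  rw [Nat.floor_div_eq_div]
  rcases lt_trichotomy (mult L c) k with b | b | b
  · have : ⌈(mult L c : ℚ) / k⌉₊ = 1 := by
      rw [Nat.ceil_eq_iff (by norm_num)]
      refine ⟨by simpa using div_pos (by exact_mod_cast p) hk', ?_⟩
      rw [div_le_iff₀ hk']
      exact_mod_cast (by omega)
    rw [this, Nat.div_eq_of_lt b]
    have := a2 b.le
    omega
  · left
    rw [b, Nat.div_self hk]
    have := a2 b.le
    have := a3 b.ge
    omega
  · have : ⌈(mult L c : ℚ) / k⌉₊ = 2 := by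
      rw [Nat.ceil_eq_iff (by norm_num)]
      refine ⟨?_, ?_⟩
      · rw [lt_div_iff₀ hk']
        exact_mod_cast (by omega)
      · rw [div_le_iff₀ hk']
        exact_mod_cast (by omega)
    rw [this, show mult L c / k = 1 from (Nat.div_eq_iff hk).2 (by omega)]
    have := a3 b.le
    omega

end Pool.Agent.H.MP_f66848_co
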