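import Mathlib

namespace Pool.Agent.H.MP_f66848_co
open Finset

variable {V : Type} [Fintype V]

/-- multiplicity of the colour `c` -/
def mult (L : V → Finset ℕ) (c : ℕ) : ℕ := (univ.filter (fun v => c ∈ L v)).card

/-- size of the colour class of `c` -/
def cnt (f : V → ℕ) (c : ℕ) : ℕ := (univ.filter (fun v => f v = c)).card

/-- `f` is a proportional `L`-colouring of `G` for the `k`-assignment `L` -/
def IsProportional (G : SimpleGraph V) (k : ℕ) (L : V → Finset ℕ) (f : V → ℕ) : Prop :=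
  (∀ v, f v ∈ L v) ∧ (∀ u v, G.Adj u v → f u ≠ f v) ∧
    ∀ c, (∃ v, c ∈ L v) →
      cnt f c = ⌊(mult L c : ℚ) / k⌋₊ ∨ cnt f c = ⌈(mult L c : ℚ) / k⌉₊

def PropChoosable (G : SimpleGraph V) (k : ℕ) : Prop :=
  ∀ L : V → Finset ℕ, (∀ v, (L v).card = k) → ∃ f, IsProportional G k L f

/-- proportional choice number -/
noncomputable def chiPC (G : SimpleGraph V) : ℕ := sInf {k | 1 ≤ k ∧ PropChoosable G k}

end Pool.Agent.H.MP_f66848_co
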