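import Pool.Agent.H.MP_f66848_co.Base

namespace Pool.Agent.H.MP_f66848_co
open Finset Sum

variable {α β : Type} [Fintype α] [Fintype β] [DecidableEq α] [DecidableEq β]

def conf (f : α ⊕ β → ℕ) : Finset α := univ.filter (fun a => ∃ b, f (inl a) = f (inr b))

lemma conf_lt {f g : α ⊕ β → ℕ} {a : α} (ha : a ∈ conf f) (h1 : ∀ x, x ≠ a → g (inl x) = f (inl x))
    (h2 : ∀ y, g (inr y) = f (inr y) ∨ ∀ x, g (inr y) ≠ g (inl x))
    (h3 : ∀ y, g (inr y) ≠ g (inl a)) : (conf g).card < (conf f).card := by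
  refine card_lt_card ⟨fun x hx => ?_, fun h => ?_⟩
  · obtain ⟨y, hy⟩ := (mem_filter.1 hx).2
    have : x ≠ a := fun e => h3 y (e ▸ hy.symm)
    rcases h2 y with e | e
    · exact mem_filter.2 ⟨mem_univ _, y, by rw [← h1 x this, hy, e]⟩
    · exact absurd hy.symm (e x)
  · obtain ⟨y, hy⟩ := (mem_filter.1 (h ha)).2
    exact h3 y hy.symm

lemma two_le_cnt {V : Type} [Fintype V] {f : V → ℕ} {u v : V} {c : ℕ} (h : u ≠ v) (hu : f u = c)
    (hv : f v = c) : 2 ≤ cnt f c :=
  one_lt_card.2 ⟨u, mem_filter.2 ⟨mem_univ _, hu⟩, v, mem_filter.2 ⟨mem_univ _, hv⟩, h⟩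

lemma three_le_cnt {V : Type} [Fintype V] {f : V → ℕ} {u v w : V} {c : ℕ} (h : u ≠ v) (h' : u ≠ w)
    (h'' : v ≠ w) (hu : f u = c) (hv : f v = c) (hw : f w = c) : 3 ≤ cnt f c :=
  two_lt_card_iff.2 ⟨u, v, w, mem_filter.2 ⟨mem_univ _, hu⟩, mem_filter.2 ⟨mem_univ _, hv⟩,
    mem_filter.2 ⟨mem_univ _, hw⟩, h, h', h''⟩

lemma cnt_zero {V : Type} [Fintype V] {f : V → ℕ} {c : ℕ} (h : ∀ v, f v ≠ c) : cnt f c = 0 :=
  card_eq_zero.2 (filter_eq_empty_iff.2 (fun v _ => h v))

lemma step {k : ℕ} {L : α ⊕ β → Finset ℕ} (hL : ∀ v, (L v).card = k)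
    (hk : Fintype.card β + 2 * Fintype.card α ≤ 2 * k) {f : α ⊕ β → ℕ} (hf : Bal k L f)
    {a : α} (ha : a ∈ conf f) : ∃ g, Bal k L g ∧ (conf g).card < (conf f).card := by
  obtain ⟨b, hb⟩ := (mem_filter.1 ha).2
  set c := f (inl a) with hc
  have c2 : cnt f c = 2 := le_antisymm (hf.2 c).1 (two_le_cnt (u := inl a) (v := inr b) (by simp) rfl hb.symm)
  have cbig : k < mult L c := by
    by_contra h
    have := (hf.2 c).2.1 (by omega)
    omega
  have ca : ∀ x, x ≠ a → f (inl x) ≠ c := fun x hx e => by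
    have := three_le_cnt (c := c) (u := inl a) (v := inr b) (w := inl x) (by simp) (by simpa using hx.symm)
      (by simp) rfl hb.symm e
    omega
  set D := univ.image (fun x : α => f (inl x)) with hD
  have hDc : D.card ≤ Fintype.card α := card_image_le.trans (by simp)
  obtain ⟨c', hc', hc1⟩ : ∃ c' ∈ L (inl a) \ D, cnt f c' ≤ 1 := by
    by_contra h
    push Not at h
    have e1 : 2 * (L (inl a) \ D).card ≤ ∑ d ∈ L (inl a) \ D, cnt f d := by
      rw [mul_comm, ← smul_eq_mul]
      exact card_nsmul_le_sum _ _ _ h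
    have e2 : ∑ d ∈ L (inl a) \ D, cnt f d = (univ.filter (fun v => f v ∈ L (inl a) \ D)).card := by
      rw [card_eq_sum_card_fiberwise (f := f) (t := L (inl a) \ D)
        (fun v hv => mem_coe.2 (mem_filter.1 (mem_coe.1 hv)).2)]
      refine sum_congr rfl (fun d hd => ?_)
      unfold cnt
      congr 1
      ext v
      simp only [mem_filter, mem_univ, true_and]
      exact ⟨fun e => ⟨e ▸ hd, e⟩, fun e => e.2⟩
    have e3 : univ.filter (fun v => f v ∈ L (inl a) \ D) ⊆ (univ.erase b).image inr := by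
      rintro (x | y) hv
      · exact absurd (mem_image_of_mem _ (mem_univ x)) (mem_sdiff.1 (mem_filter.1 hv).2).2
      · refine mem_image_of_mem _ (mem_erase.2 ⟨fun e => ?_, mem_univ _⟩)
        refine (mem_sdiff.1 (mem_filter.1 hv).2).2 ?_
        rw [e, ← hb]
        exact mem_image_of_mem _ (mem_univ a)
    have e4 := (card_le_card e3).trans card_image_le
    rw [card_erase_of_mem (mem_univ _), card_univ] at e4
    have e5 := le_card_sdiff D (L (inl a))
    rw [hL] at e5
    have : 0 < Fintype.card β := Fintype.card_pos_iff.2 ⟨b⟩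
    omega
  obtain ⟨hc'L, hc'D⟩ := mem_sdiff.1 hc'
  have c'A : ∀ x, f (inl x) ≠ c' := fun x e => hc'D (e ▸ mem_image_of_mem _ (mem_univ x))
  have cc' : c ≠ c' := c'A a
  set f1 := Function.update f (inl a) c' with hf1
  have u1 := cnt_update f (inl a) c'
  rw [← hf1, ← hc] at u1
  have f1a : f1 (inl a) = c' := Function.update_self _ _ _
  have f1x : ∀ x, x ≠ a → f1 (inl x) = f (inl x) := fun x hx =>
    Function.update_of_ne (by simpa using hx) _ _
  have f1y : ∀ y, f1 (inr y) = f (inr y) := fun y => Function.update_of_ne (by simp) _ _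
  have f1L : ∀ v, f1 v ∈ L v := fun v => by
    by_cases e : v = inl a
    · rw [e, f1a]; exact hc'L
    · rw [hf1, Function.update_of_ne e]; exact hf.1 v
  have f1c : ∀ x, c ≠ f1 (inl x) := fun x => by
    by_cases e : x = a
    · rw [e, f1a]; exact cc'
    · rw [f1x x e]; exact (ca x e).symm
  by_cases h0 : ∀ y, f (inr y) ≠ c'
  · have z : cnt f c' = 0 := cnt_zero (by rintro (x | y); exacts [c'A x, h0 y])
    refine ⟨f1, hf.change f1L (fun e => ?_), conf_lt ha f1x (fun y => Or.inl (f1y y))
      (fun y => by rw [f1y, f1a]; exact h0 y)⟩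
    have := u1 e
    split_ifs at this with p q q
    · omega
    · subst p; omega
    · subst q; omega
    · omega
  push Not at h0
  obtain ⟨b', hb'⟩ := h0
  have only : ∀ y, y ≠ b' → f (inr y) ≠ c' := fun y hy e => by
    have := two_le_cnt (u := inr y) (v := inr b') (by simpa using hy) e hb'
    omega
  set D1 := univ.image (fun x : α => f1 (inl x)) with hD1
  have hD1c : D1.card ≤ Fintype.card α := card_image_le.trans (by simp)
  have nD1 : ∀ d, d ∉ D1 → ∀ x, d ≠ f1 (inl x) := fun d hd x e =>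
    hd (e ▸ mem_image_of_mem _ (mem_univ x))
  -- second move
  have two : ∀ d ∈ L (inr b'), (∀ x, d ≠ f1 (inl x)) → ∃ f2 : α ⊕ β → ℕ, (∀ v, f2 v ∈ L v) ∧
      (∀ x, f2 (inl x) = f1 (inl x)) ∧ (∀ y, y ≠ b' → f2 (inr y) = f (inr y)) ∧ f2 (inr b') = d ∧
      ∀ e, cnt f2 e + (if c = e then 1 else 0) = cnt f e + (if d = e then 1 else 0) := by
    intro d hd _
    refine ⟨Function.update f1 (inr b') d, fun v => ?_, fun x => Function.update_of_ne (by simp) _ _,
      fun y hy => ?_, Function.update_self _ _ _, fun e => ?_⟩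
    · by_cases e : v = inr b'
      · rw [e, Function.update_self]; exact hd
      · rw [Function.update_of_ne e]; exact f1L v
    · rw [Function.update_of_ne (by simpa using hy), f1y]
    · have p := cnt_update f1 (inr b') d e
      rw [f1y, hb'] at p
      have q := u1 e
      omega
  have fin : ∀ g : α ⊕ β → ℕ, (∀ x, g (inl x) = f1 (inl x)) →
      (∀ y, (y ≠ b' ∧ g (inr y) = f (inr y)) ∨ ∀ x, g (inr y) ≠ f1 (inl x)) →
      (conf g).card < (conf f).card := by
    intro g g1 g2
    refine conf_lt ha (fun x hx => by rw [g1, f1x x hx]) (fun y => ?_) (fun y => ?_)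
    · rcases g2 y with p | p
      · exact Or.inl p.2
      · exact Or.inr (fun x => by rw [g1]; exact p x)
    · rcases g2 y with p | p
      · rw [p.2, g1, f1a]; exact only y p.1
      · rw [g1]; exact p a
  by_cases hA : ∃ d ∈ L (inr b'), (∀ x, d ≠ f1 (inl x)) ∧ (d = c ∨ cnt f d = 0)
  · obtain ⟨d, hd, hd1, hd2⟩ := hA
    obtain ⟨f2, p1, p2, p3, p4, p5⟩ := two d hd hd1
    refine ⟨f2, hf.change p1 (fun e => ?_), fin f2 p2 (fun y => ?_)⟩
    · have := p5 e
      split_ifs at this with p q q
      · omega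
      · subst p; omega
      · subst q
        rcases hd2 with r | r
        · exact absurd r.symm p
        · omega
      · omega
    · by_cases e : y = b'
      · right; rw [e, p4]; exact hd1
      · exact Or.inl ⟨e, p3 y e⟩
  push Not at hA
  have hcb : c ∉ L (inr b') := fun h => (hA c h f1c).1 rfl
  set U := univ.filter (fun y : β => f (inr y) ∈ L (inr b') \ D1) with hU
  set W := univ.filter (fun y : β => c ∈ L (inr y)) with hW
  have hUb : b' ∉ U := fun h => (mem_sdiff.1 (mem_filter.1 h).2).2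
    (mem_image.2 ⟨a, mem_univ _, by rw [f1a, hb']⟩)
  have hUc : (L (inr b') \ D1).card ≤ U.card := by
    refine card_le_card_of_surjOn (fun y => f (inr y)) (fun d hd => ?_)
    obtain ⟨d1, d2⟩ := mem_sdiff.1 (mem_coe.1 hd)
    obtain ⟨p, q⟩ := hA d d1 (nD1 d d2)
    obtain ⟨v, hv⟩ := card_pos.1 (Nat.pos_of_ne_zero q)
    have hv := (mem_filter.1 hv).2
    rcases v with x | y
    · by_cases e : x = a
      · exact absurd (by rw [← hv, e]) p
      · exact absurd (by rw [f1x x e, hv]) (nD1 d d2 x)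
    · exact ⟨y, mem_coe.2 (mem_filter.2 ⟨mem_univ _, hv ▸ mem_coe.1 hd⟩), hv⟩
  have hWc : mult L c ≤ Fintype.card α + W.card := by
    have : univ.filter (fun v => c ∈ L v) ⊆ univ.image inl ∪ W.image inr := by
      rintro (x | y) hv
      · exact mem_union_left _ (mem_image_of_mem _ (mem_univ _))
      · exact mem_union_right _ (mem_image_of_mem _ (mem_filter.2 ⟨mem_univ _, (mem_filter.1 hv).2⟩))
    refine (card_le_card this).trans ((card_union_le _ _).trans (add_le_add ?_ card_image_le))
    exact card_image_le.trans (by simp)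
  obtain ⟨u, hu1, hu2⟩ : ∃ u ∈ U, u ∈ W := by
    by_contra h
    push Not at h
    have d1 : Disjoint (insert b' U) W := by
      rw [disjoint_left]
      intro y hy hy'
      rcases mem_insert.1 hy with e | e
      · exact hcb (e ▸ (mem_filter.1 hy').2)
      · exact h y e hy'
    have d2 := card_le_univ (insert b' U ∪ W)
    rw [card_union_of_disjoint d1, card_insert_of_notMem hUb] at d2
    have e5 := le_card_sdiff D1 (L (inr b'))
    rw [hL] at e5
    omega
  obtain ⟨d1, d2⟩ := mem_sdiff.1 (mem_filter.1 hu1).2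
  have ub : u ≠ b' := fun e => hUb (e ▸ hu1)
  obtain ⟨f2, p1, p2, p3, p4, p5⟩ := two _ d1 (nD1 _ d2)
  refine ⟨Function.update f2 (inr u) c, hf.change (fun v => ?_) (fun e => ?_),
    fin _ (fun x => ?_) (fun y => ?_)⟩
  · by_cases e : v = inr u
    · rw [e, Function.update_self]; exact (mem_filter.1 hu2).2
    · rw [Function.update_of_ne e]; exact p1 v
  · have p := cnt_update f2 (inr u) c e
    rw [p3 u ub] at p
    have q := p5 e
    omega
  · rw [Function.update_of_ne (by simp), p2]
  · by_cases e : y = u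
    · right; rw [e, Function.update_self]; exact f1c
    · rw [Function.update_of_ne (by simpa using e)]
      by_cases e' : y = b'
      · right; rw [e', p4]; exact nD1 _ d2
      · exact Or.inl ⟨e', p3 y e'⟩

lemma upper {k : ℕ} (ha : 1 ≤ Fintype.card α)
    (hk : Fintype.card β + 2 * Fintype.card α ≤ 2 * k) :
    PropChoosable (completeBipartiteGraph α β) k := by
  intro L hL
  have hm : ∀ c, mult L c < 2 * k := fun c => by
    have := card_le_univ (univ.filter (fun v => c ∈ L v))
    rw [Fintype.card_sum] at this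
    unfold mult
    omega
  have key : ∀ r : ℕ, ∀ f, Bal k L f → (conf f).card ≤ r → ∃ g, Bal k L g ∧ conf g = ∅ := by
    intro r
    induction r with
    | zero => exact fun f hf h => ⟨f, hf, card_eq_zero.1 (by omega)⟩
    | succ r ih =>
      intro f hf h
      rcases (conf f).eq_empty_or_nonempty with e | ⟨a, e⟩
      · exact ⟨f, hf, e⟩
      · obtain ⟨g, p, q⟩ := step hL hk hf e
        exact ih g p (by omega)
  obtain ⟨f, hf⟩ := exists_bal k (by omega) L hL (fun c => (hm c).le)
  obtain ⟨g, p, q⟩ := key _ f hf le_rfl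
  have nc : ∀ a b, g (inl a) ≠ g (inr b) := fun a b e =>
    notMem_empty a (q ▸ mem_filter.2 ⟨mem_univ _, b, e⟩)
  refine ⟨g, p.1, ?_, p.prop (by omega) hm⟩
  rintro (x | x) (y | y) h
  · simp at h
  · exact nc x y
  · exact (nc y x).symm
  · simp at h

lemma lower {k : ℕ} (a : α) (hk : 1 ≤ k) (h : PropChoosable (completeBipartiteGraph α β) k) :
    Fintype.card β + 1 < 2 * k := by
  let L : α ⊕ β → Finset ℕ := Sum.elim (fun x => if x = a then range k else Ico k (2 * k))
    (fun _ => range k)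
  obtain ⟨f, h1, h2, h3⟩ := h L (by
    rintro (x | y)
    · by_cases e : x = a
      · simp [L, e]
      · simp only [L, Sum.elim_inl, e, if_false, Nat.card_Ico]; omega
    · simp [L])
  set c := f (inl a) with hc
  have ck : c < k := by simpa [L] using h1 (inl a)
  have m1 : mult L c = Fintype.card β + 1 := by
    have : univ.filter (fun v => c ∈ L v) = insert (inl a) (univ.image inr) := by
      ext v
      rcases v with x | y
      · by_cases e : x = a
        · simp [L, e, ck]
        · simp [L, e]; omega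
      · simp [L, ck]
    unfold mult
    rw [this, card_insert_of_notMem (by simp), card_image_of_injective _ inr_injective, card_univ]
  have m2 : cnt f c ≤ 1 := by
    have q : ∀ v, f v = c → v = inl a := by
      rintro (x | y) e
      · by_contra p
        have p' : x ≠ a := by simpa using p
        have := h1 (inl x)
        simp [L, p'] at this
        omega
      · exact absurd e.symm (h2 (inl a) (inr y) (by simp))
    exact card_le_one.2 (fun u hu v hv => (q u (mem_filter.1 hu).2).trans (q v (mem_filter.1 hv).2).symm)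
  have m3 : ⌊(mult L c : ℚ) / k⌋₊ ≤ 1 := by
    rcases h3 c ⟨inl a, h1 _⟩ with e | e
    · omega
    · exact (Nat.floor_le_ceil _).trans (by omega)
  rw [Nat.floor_div_eq_div, m1] at m3
  have := (Nat.div_lt_iff_lt_mul hk).1 (Nat.lt_succ_of_le m3)
  omega

lemma chi_bounds {n : ℕ} (hn : 1 ≤ n) (m : ℕ) :
    m + 2 ≤ 2 * chiPC (completeBipartiteGraph (Fin n) (Fin m)) ∧
      chiPC (completeBipartiteGraph (Fin n) (Fin m)) ≤ (m + 1) / 2 + n := by
  have h : (m + 1) / 2 + n ∈ {k | 1 ≤ k ∧ PropChoosable (completeBipartiteGraph (Fin n) (Fin m)) k} :=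
    ⟨by omega, upper (by simpa using hn) (by simp only [Fintype.card_fin]; omega)⟩
  refine ⟨?_, Nat.sInf_le h⟩
  obtain ⟨p, q⟩ := Nat.sInf_mem ⟨_, h⟩
  have := lower (⟨0, hn⟩ : Fin n) p q
  rw [Fintype.card_fin] at this
  exact this

open Filter Topology in
lemma limit {n : ℕ} (hn : 1 ≤ n) :
    Tendsto (fun m : ℕ => (chiPC (completeBipartiteGraph (Fin n) (Fin m)) : ℝ) / m) atTop
      (𝓝 (1 / 2)) := by
  have t : Tendsto (fun m : ℕ => (1 / 2 : ℝ) + (n + 1 : ℝ) / m) atTop (𝓝 (1 / 2)) := by
    simpa using (tendsto_const_div_atTop_nhds_zero_nat (n + 1 : ℝ)).const_add (1 / 2 : ℝ)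
  refine tendsto_of_tendsto_of_tendsto_of_le_of_le' tendsto_const_nhds t ?_ ?_
  · filter_upwards [eventually_ge_atTop 1] with m hm
    have hm' : (0 : ℝ) < m := by exact_mod_cast hm
    have : (m : ℝ) + 2 ≤ 2 * chiPC (completeBipartiteGraph (Fin n) (Fin m)) := by
      exact_mod_cast (chi_bounds hn m).1
    rw [le_div_iff₀ hm']
    linarith
  · filter_upwards [eventually_ge_atTop 1] with m hm
    have hm' : (0 : ℝ) < m := by exact_mod_cast hm
    have : 2 * (chiPC (completeBipartiteGraph (Fin n) (Fin m)) : ℝ) ≤ m + 2 * n + 2 := by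
      have := (chi_bounds hn m).2
      exact_mod_cast (by omega)
    rw [div_le_iff₀ hm', add_mul, div_mul_cancel₀ _ hm'.ne']
    linarith

end Pool.Agent.H.MP_f66848_co
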